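import Pool.Agent.N804.AvgF

/-!
# The pair correlation conjecture on average over the distance

The mean over the distance of the discrepancy in the pair correlation conjecture is computed, with a
bounded error after multiplication by the length of the interval: it is `-(M(T) - 1) / 4π`, where
`M(T)` is the mean number of zeros having the ordinate of a zero. So the conjecture holds on average
over the distance if and only if almost all zeros are simple and on the critical line.
-/

open Filter Topology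

namespace Pool.Agent.Results.MP_f58427_nt.AverageForm

/-- multiplicity of `s` as a zero of the Riemann zeta function (order of vanishing at `s`) -/
noncomputable def zmult (s : ℂ) : ℕ := analyticOrderNatAt riemannZeta s

/-- the nontrivial zeros of `ζ` -/
def ZZ : Set ℂ := {s : ℂ | riemannZeta s = 0 ∧ 0 < s.re ∧ s.re < 1}

/-- `N*(T, a)`: the number of ordered pairs `(γ, γ')` of ordinates of nontrivial zeros, counted
with multiplicity, with `0 < γ ≤ T` and `0 < γ - γ' ≤ 2πa / log T` -/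
noncomputable def Nstar (T a : ℝ) : ℕ :=
  ∑ᶠ p ∈ {p : ℂ × ℂ | p.1 ∈ ZZ ∧ p.2 ∈ ZZ ∧ 0 < p.1.im ∧ p.1.im ≤ T ∧
    0 < p.1.im - p.2.im ∧ p.1.im - p.2.im ≤ 2 * Real.pi * a / Real.log T}, zmult p.1 * zmult p.2

/-- the number of zeros with ordinate in `(0, T]`, counted with multiplicity, that are off the
critical line or multiple -/
noncomputable def Nbad (T : ℝ) : ℕ :=
  ∑ᶠ s ∈ {s : ℂ | s ∈ ZZ ∧ 0 < s.im ∧ s.im ≤ T ∧ (s.re ≠ 1 / 2 ∨ zmult s ≠ 1)}, zmult s

/-- the number of ordered pairs of zeros with equal ordinates in `(0, T]`, counted with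
multiplicity, divided by `T log T / 2π` -/
noncomputable def M (T : ℝ) : ℝ :=
  ((∑ᶠ p ∈ {p : ℂ × ℂ | p.1 ∈ ZZ ∧ p.2 ∈ ZZ ∧ 0 < p.1.im ∧ p.1.im ≤ T ∧ p.1.im = p.2.im},
    zmult p.1 * zmult p.2 : ℕ) : ℝ) / (T * Real.log T / (2 * Real.pi))

/-- the value of the conjecture, `(1 / 2π) ∫₀ᵃ (1 - (sin πu / πu)²) du` -/
noncomputable def P (a : ℝ) : ℝ :=
  (1 / (2 * Real.pi)) * ∫ u in (0 : ℝ)..a, (1 - (Real.sin (Real.pi * u) / (Real.pi * u)) ^ 2)

/-- the integral over the distances up to `a` of the discrepancy at height `T` -/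
noncomputable def D (T a : ℝ) : ℝ :=
  ∫ x in (0 : ℝ)..a, ((Nstar T x : ℝ) / (T * Real.log T) - P x)

/-- **Mean value of the discrepancy.** (i) There is a constant `K` with
`|D(T, a) + (M(T) - 1) a / 4π| ≤ K` for all `a > 0` and `T ≥ T₀(a)`. (ii) Consequently, for
`T → ∞`, and more generally along any filter of heights tending to infinity (for instance any
sequence), the following are equivalent: the number of zeros up to `T` that are multiple or off the
line is `o(T log T)`; `M(T) → 1`; the conjecture holds on average from below, that is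
`liminf (1/A) D(T, A) ≥ -ε` for some arbitrarily large `A`, for each `ε > 0`; the integrals of the
discrepancy are bounded, `limsup |D(T, a)| ≤ K` for all `a > 0`, with a constant `K`. -/
theorem result :
    (∃ K : ℝ, ∀ a : ℝ, 0 < a → ∃ T₀ : ℝ, ∀ T : ℝ, T₀ ≤ T →
      |D T a + (M T - 1) * a / (4 * Real.pi)| ≤ K) ∧
    ∀ l : Filter ℝ, l ≤ atTop → List.TFAE [
      Tendsto (fun T : ℝ => (Nbad T : ℝ) / (T * Real.log T)) l (𝓝 0),
      Tendsto M l (𝓝 1),
      ∀ ε : ℝ, 0 < ε → ∀ A₀ : ℝ, ∃ A : ℝ, A₀ ≤ A ∧ 0 < A ∧ ∀ᶠ T : ℝ in l, -ε ≤ (1 / A) * D T A,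
      ∃ K : ℝ, ∀ a : ℝ, 0 < a → ∀ᶠ T : ℝ in l, |D T a| ≤ K] := by
  have hpi := Real.pi_pos
  have hP : ∀ a, P a = N804.PP a / (2 * Real.pi) := N804.val_eq
  have hD : ∀ a : ℝ, 0 < a → ∀ᶠ T : ℝ in atTop,
      D T a = (∫ x in (0 : ℝ)..a, (N804.CF T x - N804.PP x)) / (2 * Real.pi) := by
    intro a ha
    obtain ⟨T₀, hT₀, h⟩ := N804.nstar_eq' a
    filter_upwards [eventually_ge_atTop T₀] with T hT
    have hT10 : 10 ≤ T := hT₀.trans hT
    have hL : 0 < Real.log T := Real.log_pos (by linarith)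
    unfold D
    rw [← intervalIntegral.integral_div]
    refine intervalIntegral.integral_congr_ae (MeasureTheory.ae_of_all _ fun x hx => ?_)
    rw [Set.uIoc_of_le ha.le] at hx
    have e : (Nstar T x : ℝ) = N804.CF T x * N804.XX T := h T hT x hx.2
    rw [e, hP]
    unfold N804.XX
    have : T ≠ 0 := by linarith
    field_simp
  have hM : ∀ T, M T = N804.MF T := by
    intro T
    unfold M N804.MF
    rw [← N804.pe_eq T]
    rfl
  have hB : ∀ T : ℝ, 1 < T → (Nbad T : ℝ) / (T * Real.log T) = N804.BF T / (2 * Real.pi) := by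
    intro T hT
    have hL : 0 < Real.log T := Real.log_pos hT
    have e : (Nbad T : ℝ) = N804.BF T * N804.XX T := N804.nbad_eq hT
    rw [e]
    unfold N804.XX
    have : T ≠ 0 := by linarith
    field_simp
  constructor
  · obtain ⟨K, hK, h⟩ := N804.mean_T
    refine ⟨K / (2 * Real.pi), fun a ha => ?_⟩
    obtain ⟨T₀, hT₀⟩ := eventually_atTop.1 ((h a ha).and (hD a ha))
    refine ⟨T₀, fun T hT => ?_⟩
    obtain ⟨h1, h2⟩ := hT₀ T hT
    rw [h2, hM]
    have e : (∫ x in (0 : ℝ)..a, (N804.CF T x - N804.PP x)) / (2 * Real.pi) +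
        (N804.MF T - 1) * a / (4 * Real.pi) =
        ((∫ x in (0 : ℝ)..a, (N804.CF T x - N804.PP x)) + (N804.MF T - 1) * a / 2) /
          (2 * Real.pi) := by
      field_simp
      ring
    rw [e, abs_div, abs_of_pos (by positivity : 0 < 2 * Real.pi)]
    gcongr
  · intro l hl
    have hav := N804.avg_tfae hl
    have e1 : Tendsto (fun T : ℝ => (Nbad T : ℝ) / (T * Real.log T)) l (𝓝 0) ↔
        Tendsto N804.BF l (𝓝 0) := by
      have hev : ∀ᶠ T : ℝ in l, (Nbad T : ℝ) / (T * Real.log T) = N804.BF T / (2 * Real.pi) := by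
        filter_upwards [hl (eventually_gt_atTop 1)] with T hT using hB T hT
      constructor
      · intro h
        have h3 := h.const_mul (2 * Real.pi)
        rw [mul_zero] at h3
        refine h3.congr' ?_
        filter_upwards [hev] with T hT
        rw [hT]
        field_simp
      · intro h
        have h3 := h.div_const (2 * Real.pi)
        rw [zero_div] at h3
        refine h3.congr' ?_
        filter_upwards [hev] with T hT
        exact hT.symm
    have e2 : Tendsto M l (𝓝 1) ↔ Tendsto N804.MF l (𝓝 1) := by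
      rw [funext hM]
    have e3 : (∀ ε : ℝ, 0 < ε → ∀ A₀ : ℝ, ∃ A : ℝ, A₀ ≤ A ∧ 0 < A ∧
        ∀ᶠ T : ℝ in l, -ε ≤ (1 / A) * D T A) ↔
        (∀ ε : ℝ, 0 < ε → ∀ A₀ : ℝ, ∃ A : ℝ, A₀ ≤ A ∧ 0 < A ∧
        ∀ᶠ T in l, -(ε * A) ≤ ∫ x in (0 : ℝ)..A, (N804.CF T x - N804.PP x)) := by
      have key : ∀ (ε A : ℝ), 0 < A → ((∀ᶠ T : ℝ in l, -ε ≤ (1 / A) * D T A) ↔
          ∀ᶠ T in l, -(ε * (2 * Real.pi) * A) ≤
            ∫ x in (0 : ℝ)..A, (N804.CF T x - N804.PP x)) := by
        intro ε A hA
        refine eventually_congr ?_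
        filter_upwards [hl (hD A hA)] with T hT
        rw [hT]
        set I := ∫ x in (0 : ℝ)..A, (N804.CF T x - N804.PP x)
        rw [one_div, inv_mul_eq_div, div_div, le_div_iff₀ (by positivity)]
        constructor <;> intro h <;> linarith
      constructor
      · intro h ε hε A₀
        obtain ⟨A, hA, hA0, h1⟩ := h (ε / (2 * Real.pi)) (by positivity) A₀
        refine ⟨A, hA, hA0, ?_⟩
        have h2 := (key _ A hA0).1 h1
        rwa [div_mul_cancel₀ _ (by positivity : 2 * Real.pi ≠ 0)] at h2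
      · intro h ε hε A₀
        obtain ⟨A, hA, hA0, h1⟩ := h (ε * (2 * Real.pi)) (by positivity) A₀
        exact ⟨A, hA, hA0, (key _ A hA0).2 h1⟩
    have e4 : (∃ K : ℝ, ∀ a : ℝ, 0 < a → ∀ᶠ T : ℝ in l, |D T a| ≤ K) ↔
        (∃ K : ℝ, ∀ a : ℝ, 0 < a → ∀ᶠ T in l,
          |∫ x in (0 : ℝ)..a, (N804.CF T x - N804.PP x)| ≤ K) := by
      constructor
      · rintro ⟨K, h⟩
        refine ⟨K * (2 * Real.pi), fun a ha => ?_⟩
        filter_upwards [hl (hD a ha), h a ha] with T h1 h2
        rw [h1, abs_div, abs_of_pos (by positivity : 0 < 2 * Real.pi),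
          div_le_iff₀ (by positivity)] at h2
        exact h2
      · rintro ⟨K, h⟩
        refine ⟨K / (2 * Real.pi), fun a ha => ?_⟩
        filter_upwards [hl (hD a ha), h a ha] with T h1 h2
        rw [h1, abs_div, abs_of_pos (by positivity : 0 < 2 * Real.pi)]
        gcongr
    rw [e1, e2, e3, e4]
    exact hav

end Pool.Agent.Results.MP_f58427_nt.AverageForm
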