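import Pool.Agent.N804.Fil

/-!
# The lower half of the pair correlation conjecture at large distances implies the conjecture

No hypothesis is assumed: the statements below are proved to be equivalent, for `T → ∞` and also
along every sequence of heights.
-/

open Filter Topology

namespace Pool.Agent.Results.MP_f58427_nt.LowerHalfSuffices

/-- multiplicity of `s` as a zero of the Riemann zeta function (order of vanishing at `s`) -/
noncomputable def zmult (s : ℂ) : ℕ := analyticOrderNatAt riemannZeta s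

/-- the nontrivial zeros of `ζ` -/
def ZZ : Set ℂ := {s : ℂ | riemannZeta s = 0 ∧ 0 < s.re ∧ s.re < 1}

/-- `N*(T, a)`: the number of ordered pairs `(γ, γ')` of ordinates of nontrivial zeros, counted
with multiplicity, with `0 < γ ≤ T` and `0 < γ - γ' ≤ 2πa / log T` -/
noncomputable def Nstar (T a : ℝ) : ℕ :=
  ∑ᶠ p ∈ {p : ℂ × ℂ | p.1 ∈ ZZ ∧ p.2 ∈ ZZ ∧ 0 < p.1.im ∧ p.1.im ≤ T ∧
    0 < p.1.im - p.2.im ∧ p.1.im - p.2.im ≤ 2 * Real.pi * a / Real.log T}, zmult p.1 * zmult p.2

/-- the number of zeros with ordinate in `(0, T]`, counted with multiplicity, that are off the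
critical line or multiple -/
noncomputable def Nbad (T : ℝ) : ℕ :=
  ∑ᶠ s ∈ {s : ℂ | s ∈ ZZ ∧ 0 < s.im ∧ s.im ≤ T ∧ (s.re ≠ 1 / 2 ∨ zmult s ≠ 1)}, zmult s

/-- the value of the conjecture, `(1 / 2π) ∫₀ᵃ (1 - (sin πu / πu)²) du` -/
noncomputable def P (a : ℝ) : ℝ :=
  (1 / (2 * Real.pi)) * ∫ u in (0 : ℝ)..a, (1 - (Real.sin (Real.pi * u) / (Real.pi * u)) ^ 2)

/-- Let `l` be `T → ∞`, or more generally a countably generated filter contained in it (for
instance a sequence of heights tending to infinity). The following are equivalent. (1) The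
conjecture along `l`: `N*(T, a) / (T log T) → P(a)` for all `a > 0`. (2) Its lower half at large
distances: for some `R`, `liminf N*(T, a) / (T log T) ≥ P(a)` for all `a ≥ R`. (3) Its lower half at
large distances with an exponentially small loss: for some `K`, `R` and `c > 0`,
`liminf N*(T, a) / (T log T) ≥ P(a) - K exp(-c a)` for all `a ≥ R`. (4) (3) holds, and almost all
zeros are simple and on the critical line. -/
theorem result (l : Filter ℝ) (hl : l ≤ atTop) (hg : l.IsCountablyGenerated) : List.TFAE [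
    ∀ a : ℝ, 0 < a → Tendsto (fun T : ℝ => (Nstar T a : ℝ) / (T * Real.log T)) l (𝓝 (P a)),
    ∃ R : ℝ, ∀ a : ℝ, R ≤ a → ∀ ε : ℝ, 0 < ε → ∀ᶠ T : ℝ in l,
      P a - ε ≤ (Nstar T a : ℝ) / (T * Real.log T),
    ∃ K c R : ℝ, 0 < c ∧ ∀ a : ℝ, R ≤ a → ∀ ε : ℝ, 0 < ε → ∀ᶠ T : ℝ in l,
      P a - K * Real.exp (-(c * a)) - ε ≤ (Nstar T a : ℝ) / (T * Real.log T),
    Tendsto (fun T : ℝ => (Nbad T : ℝ) / (T * Real.log T)) l (𝓝 0) ∧
      ∃ K c R : ℝ, 0 < c ∧ ∀ a : ℝ, R ≤ a → ∀ ε : ℝ, 0 < ε → ∀ᶠ T : ℝ in l,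
      P a - K * Real.exp (-(c * a)) - ε ≤ (Nstar T a : ℝ) / (T * Real.log T)] := by
  have hpi := Real.pi_pos
  have hP : ∀ a, P a = N804.PP a / (2 * Real.pi) := N804.val_eq
  have hN : ∀ a : ℝ, ∀ᶠ T : ℝ in l,
      (Nstar T a : ℝ) / (T * Real.log T) = N804.CF T a / (2 * Real.pi) := by
    intro a
    obtain ⟨T₀, hT₀, h⟩ := N804.nstar_eq a
    filter_upwards [hl (eventually_ge_atTop T₀)] with T hT
    have hT10 : 10 ≤ T := hT₀.trans hT
    have hL : 0 < Real.log T := Real.log_pos (by linarith)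
    have e : (Nstar T a : ℝ) = N804.CF T a * N804.XX T := h T hT
    rw [e]
    unfold N804.XX
    have : T ≠ 0 := by linarith
    field_simp
  have hB : ∀ᶠ T : ℝ in l, (Nbad T : ℝ) / (T * Real.log T) = N804.BF T / (2 * Real.pi) := by
    filter_upwards [hl (eventually_gt_atTop 1)] with T hT
    have hL : 0 < Real.log T := Real.log_pos hT
    have e : (Nbad T : ℝ) = N804.BF T * N804.XX T := N804.nbad_eq hT
    rw [e]
    unfold N804.XX
    have : T ≠ 0 := by linarith
    field_simp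
  have hlow : (∃ K c R : ℝ, 0 < c ∧ ∀ a : ℝ, R ≤ a → ∀ ε : ℝ, 0 < ε → ∀ᶠ T : ℝ in l,
      P a - K * Real.exp (-(c * a)) - ε ≤ (Nstar T a : ℝ) / (T * Real.log T)) →
      (∀ a, 0 < a → Tendsto (fun T => N804.CF T a) l (𝓝 (N804.PP a))) ∧
        Tendsto N804.BF l (𝓝 0) := by
    rintro ⟨K, c, R, hc, h⟩
    refine N804.lower_half' hl (K := 2 * Real.pi * K) (R := R) hc fun a ha ε hε => ?_
    filter_upwards [h a ha (ε / (2 * Real.pi)) (by positivity), hN a] with T h1 h2
    rw [h2, hP, le_div_iff₀ (by positivity)] at h1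
    have e : (N804.PP a / (2 * Real.pi) - K * Real.exp (-(c * a)) - ε / (2 * Real.pi)) *
        (2 * Real.pi) = N804.PP a - 2 * Real.pi * K * Real.exp (-(c * a)) - ε := by
      field_simp
    rw [e] at h1
    exact h1
  tfae_have 1 → 2 := by
    intro h
    refine ⟨1, fun a ha ε hε => ?_⟩
    have h1 := (tendsto_order.1 (h a (by linarith))).1 (P a - ε) (by linarith)
    filter_upwards [h1] with T hT using hT.le
  tfae_have 2 → 3 := by
    rintro ⟨R, h⟩
    refine ⟨0, 1, R, one_pos, fun a ha ε hε => ?_⟩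
    simpa using h a ha ε hε
  tfae_have 3 → 1 := by
    intro h a ha
    rw [hP]
    refine (((hlow h).1 a ha).div_const (2 * Real.pi)).congr' ?_
    filter_upwards [hN a] with T hT
    exact hT.symm
  tfae_have 3 → 4 := by
    intro h
    refine ⟨?_, h⟩
    have h3 := (hlow h).2.div_const (2 * Real.pi)
    rw [zero_div] at h3
    refine h3.congr' ?_
    filter_upwards [hB] with T hT
    exact hT.symm
  tfae_have 4 → 3 := fun h => h.2
  tfae_finish

end Pool.Agent.Results.MP_f58427_nt.LowerHalfSuffices
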