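import Pool.Agent.N804.PV.All
import Pool.Agent.N134.PV_G01
import Pool.Agent.N697.PV_Lam2

/-!
# One-sided bounds for the variance of primes in short intervals, the Riemann Hypothesis and the
pair correlation conjecture

The Riemann Hypothesis together with the pair correlation conjecture is equivalent to an upper
bound of the expected size for the variance of the primes in the intervals `(x, x + x/T]`, where
`x` runs over windows `T^(b-δ) ≤ x ≤ T^b`, `b > 1`, of one fixed logarithmic length `δ < 1`. It is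
also equivalent to the formula of Gallagher and Mueller.
-/

open Filter Topology

namespace Pool.Agent.Results.MP_f58427_nt.PrimeVarianceUpper

/-- multiplicity of `s` as a zero of the Riemann zeta function (order of vanishing at `s`) -/
noncomputable def zmult (s : ℂ) : ℕ := analyticOrderNatAt riemannZeta s

/-- the nontrivial zeros of `ζ` -/
def ZZ : Set ℂ := {s : ℂ | riemannZeta s = 0 ∧ 0 < s.re ∧ s.re < 1}

/-- `N*(T, a)`: the number of ordered pairs `(γ, γ')` of ordinates of nontrivial zeros, counted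
with multiplicity, with `0 < γ ≤ T` and `0 < γ - γ' ≤ 2πa / log T` -/
noncomputable def Nstar (T a : ℝ) : ℕ :=
  ∑ᶠ p ∈ {p : ℂ × ℂ | p.1 ∈ ZZ ∧ p.2 ∈ ZZ ∧ 0 < p.1.im ∧ p.1.im ≤ T ∧
    0 < p.1.im - p.2.im ∧ p.1.im - p.2.im ≤ 2 * Real.pi * a / Real.log T}, zmult p.1 * zmult p.2

/-- the value of the conjecture, `(1 / 2π) ∫₀ᵃ (1 - (sin πu / πu)²) du` -/
noncomputable def P (a : ℝ) : ℝ :=
  (1 / (2 * Real.pi)) * ∫ u in (0 : ℝ)..a, (1 - (Real.sin (Real.pi * u) / (Real.pi * u)) ^ 2)

/-- the normalised variance of the primes in the intervals `(x, x + x/T]`, `T^u ≤ x ≤ T^v`: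
`(T / log² T) ∫ (ψ(x + x/T) - ψ(x) - x/T)² x⁻² dx` -/
noncomputable def V (T u v : ℝ) : ℝ :=
  T / Real.log T ^ 2 * ∫ x in (T ^ u)..(T ^ v),
    (Chebyshev.psi (x + x / T) - Chebyshev.psi x - x / T) ^ 2 / x ^ 2

/-- Let `0 < δ < 1`. The following are equivalent. (1) The Riemann Hypothesis and the pair
correlation conjecture. (2), (3) For almost every, or for every, `b > 1`:
`limsup V(T; b', b) ≤ b - b'` as `T → ∞`, where `b' = max(1, b - δ)`. (4) `V(T; u, v) → v - u` for
all `1 ≤ u < v`. (5) `V(T; 0, b) → b - 1/2` for all `b ≥ 1` (Gallagher and Mueller's formula). -/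
theorem result {δ : ℝ} (h0 : 0 < δ) (h1 : δ < 1) : List.TFAE [
    RiemannHypothesis ∧ ∀ a : ℝ, 0 < a →
      Tendsto (fun T : ℝ => (Nstar T a : ℝ) / (T * Real.log T)) atTop (𝓝 (P a)),
    ∀ᵐ b : ℝ, 1 < b → ∀ ε : ℝ, 0 < ε → ∀ᶠ T : ℝ in atTop,
      V T (max 1 (b - δ)) b ≤ b - max 1 (b - δ) + ε,
    ∀ b : ℝ, 1 < b → ∀ ε : ℝ, 0 < ε → ∀ᶠ T : ℝ in atTop,
      V T (max 1 (b - δ)) b ≤ b - max 1 (b - δ) + ε,
    ∀ u v : ℝ, 1 ≤ u → u < v → Tendsto (fun T : ℝ => V T u v) atTop (𝓝 (v - u)),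
    ∀ b : ℝ, 1 ≤ b → Tendsto (fun T : ℝ => V T 0 b) atTop (𝓝 (b - 1 / 2))] := by
  have hg : N804.PV.S_G01 := N134.PVG.main N697.PV.main
  have hpi := Real.pi_pos
  have hP : ∀ a, P a = N804.PP a / (2 * Real.pi) := N804.val_eq
  have hN : ∀ a : ℝ, ∀ᶠ T : ℝ in atTop,
      (Nstar T a : ℝ) / (T * Real.log T) = N804.CF T a / (2 * Real.pi) := by
    intro a
    obtain ⟨T₀, hT₀, h⟩ := N804.nstar_eq a
    filter_upwards [eventually_ge_atTop T₀] with T hT
    have hT10 : 10 ≤ T := hT₀.trans hT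
    have hL : 0 < Real.log T := Real.log_pos (by linarith)
    have e : (Nstar T a : ℝ) = N804.CF T a * N804.XX T := h T hT
    rw [e]
    unfold N804.XX
    have : T ≠ 0 := by linarith
    field_simp
  have hpc : (∀ a : ℝ, 0 < a →
      Tendsto (fun T : ℝ => (Nstar T a : ℝ) / (T * Real.log T)) atTop (𝓝 (P a))) ↔
      ∀ a : ℝ, 0 < a → Tendsto (fun T => N804.CF T a) atTop (𝓝 (N804.PP a)) := by
    refine forall_congr' fun a => forall_congr' fun ha => ?_
    rw [hP]
    constructor
    · intro h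
      have h3 := h.const_mul (2 * Real.pi)
      rw [mul_div_cancel₀ _ (by positivity : (2 * Real.pi) ≠ 0)] at h3
      refine h3.congr' ?_
      filter_upwards [hN a] with T hT
      rw [hT]
      field_simp
    · intro h
      refine (h.div_const (2 * Real.pi)).congr' ?_
      filter_upwards [hN a] with T hT
      exact hT.symm
  obtain ⟨m1, m2⟩ := N804.PV.pv_main h0 h1
  rw [← hpc] at m1 m2
  tfae_have 3 → 2 := fun h => MeasureTheory.ae_of_all _ h
  tfae_have 2 → 1 := fun h => m1 h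
  tfae_have 1 → 4 := fun h => m2 h
  tfae_have 4 → 3 := by
    intro h b hb ε hε
    have h2 := h (max 1 (b - δ)) b (le_max_left _ _) (max_lt hb (by linarith))
    filter_upwards [(tendsto_order.1 h2).2 (b - max 1 (b - δ) + ε) (by linarith)] with T hT
    exact hT.le
  have hadd : ∀ u v : ℝ, ∀ᶠ T : ℝ in atTop, 0 ≤ u → u ≤ v → V T 0 v = V T 0 u + V T u v := by
    intro u v
    filter_upwards [eventually_gt_atTop 1] with T hT hu huv
    have e1 : V T 0 v = ∫ α in (0 : ℝ)..v, N804.PV.uT T α := N804.PV.GV_eq hT (hu.trans huv)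
    have e2 : V T 0 u = ∫ α in (0 : ℝ)..u, N804.PV.uT T α := N804.PV.GV_eq hT hu
    have e3 : V T u v = ∫ α in u..v, N804.PV.uT T α := N804.PV.GV_eq hT huv
    rw [e1, e2, e3, intervalIntegral.integral_add_adjacent_intervals (N804.PV.uT_ii hT _ _)
      (N804.PV.uT_ii hT _ _)]
  tfae_have 4 → 5 := by
    intro h b hb
    rcases eq_or_lt_of_le hb with rfl | hb1
    · have e : (1 : ℝ) - 1 / 2 = 1 / 2 := by norm_num
      rw [e]
      exact hg
    · have h2 := hg.add (h 1 b le_rfl hb1)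
      have e : (1 : ℝ) / 2 + (b - 1) = b - 1 / 2 := by ring
      rw [e] at h2
      refine h2.congr' ?_
      filter_upwards [hadd 1 b] with T hT
      exact (hT zero_le_one hb).symm
  tfae_have 5 → 4 := by
    intro h u v hu huv
    have h2 := (h v (hu.trans huv.le)).sub (h u hu)
    have e : v - 1 / 2 - (u - 1 / 2) = v - u := by ring
    rw [e] at h2
    refine h2.congr' ?_
    filter_upwards [hadd u v] with T hT
    rw [hT (by linarith) huv.le]
    ring
  tfae_finish

end Pool.Agent.Results.MP_f58427_nt.PrimeVarianceUpper
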