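import Pool.Agent.N804.Fil

/-!
# One of the two halves of the pair correlation conjecture at each large distance

If almost all zeros are simple and on the critical line, then the conjecture follows as soon as, at
each large distance, one of its two halves (lower bound, upper bound) holds, the choice of the half
being prescribed by any rule that changes fewer than `4/3` times per mean spacing.
-/

open Filter Topology

namespace Pool.Agent.Results.MP_f58427_nt.SignPatterns

/-- multiplicity of `s` as a zero of the Riemann zeta function (order of vanishing at `s`) -/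
noncomputable def zmult (s : ℂ) : ℕ := analyticOrderNatAt riemannZeta s

/-- the nontrivial zeros of `ζ` -/
def ZZ : Set ℂ := {s : ℂ | riemannZeta s = 0 ∧ 0 < s.re ∧ s.re < 1}

/-- `N*(T, a)`: the number of ordered pairs `(γ, γ')` of ordinates of nontrivial zeros, counted
with multiplicity, with `0 < γ ≤ T` and `0 < γ - γ' ≤ 2πa / log T` -/
noncomputable def Nstar (T a : ℝ) : ℕ :=
  ∑ᶠ p ∈ {p : ℂ × ℂ | p.1 ∈ ZZ ∧ p.2 ∈ ZZ ∧ 0 < p.1.im ∧ p.1.im ≤ T ∧
    0 < p.1.im - p.2.im ∧ p.1.im - p.2.im ≤ 2 * Real.pi * a / Real.log T}, zmult p.1 * zmult p.2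

/-- the number of zeros with ordinate in `(0, T]`, counted with multiplicity, that are off the
critical line or multiple -/
noncomputable def Nbad (T : ℝ) : ℕ :=
  ∑ᶠ s ∈ {s : ℂ | s ∈ ZZ ∧ 0 < s.im ∧ s.im ≤ T ∧ (s.re ≠ 1 / 2 ∨ zmult s ≠ 1)}, zmult s

/-- the value of the conjecture, `(1 / 2π) ∫₀ᵃ (1 - (sin πu / πu)²) du` -/
noncomputable def P (a : ℝ) : ℝ :=
  (1 / (2 * Real.pi)) * ∫ u in (0 : ℝ)..a, (1 - (Real.sin (Real.pi * u) / (Real.pi * u)) ^ 2)

/-- the number of points of `Λ` in `(0, a]` -/
noncomputable def count (Λ : Set ℝ) (a : ℝ) : ℕ := (Λ ∩ Set.Ioc 0 a).ncard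

/-- Let `Λ` be a set of real numbers with at most `d L + C` points in every interval of length `L`
of the positive half-line, where `d < 4/3`. Let `l` be `T → ∞`, or more generally a countably
generated filter contained in it (for instance a sequence of heights tending to infinity). The
conjecture along `l`, that is `N*(T, a) / (T log T) → P(a)` for all `a > 0`, holds if and only if
almost all zeros are simple and on the critical line, and for some `K`, `R` and `c > 0` and all
`a ≥ R`: `liminf N*(T, a) / (T log T) ≥ P(a) - K exp(-c a)` if the number of points of `Λ` in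
`(0, a]` is even, and `limsup N*(T, a) / (T log T) ≤ P(a) + K exp(-c a)` if it is odd. -/
theorem result (Λ : Set ℝ) (d C : ℝ) (hd : d < 4 / 3)
    (hΛ : ∀ x L : ℝ, 0 ≤ x → 0 ≤ L → (Λ ∩ Set.Icc x (x + L)).Finite ∧
      ((Λ ∩ Set.Icc x (x + L)).ncard : ℝ) ≤ d * L + C)
    (l : Filter ℝ) (hl : l ≤ atTop) (hg : l.IsCountablyGenerated) :
    (∀ a : ℝ, 0 < a → Tendsto (fun T : ℝ => (Nstar T a : ℝ) / (T * Real.log T)) l (𝓝 (P a))) ↔
    (Tendsto (fun T : ℝ => (Nbad T : ℝ) / (T * Real.log T)) l (𝓝 0) ∧
      ∃ K c R : ℝ, 0 < c ∧ ∀ a : ℝ, R ≤ a → ∀ ε : ℝ, 0 < ε → ∀ᶠ T : ℝ in l,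
        (Even (count Λ a) →
          P a - K * Real.exp (-(c * a)) - ε ≤ (Nstar T a : ℝ) / (T * Real.log T)) ∧
        (Odd (count Λ a) →
          (Nstar T a : ℝ) / (T * Real.log T) ≤ P a + K * Real.exp (-(c * a)) + ε)) := by
  have hpi := Real.pi_pos
  have hP : ∀ a, P a = N804.PP a / (2 * Real.pi) := N804.val_eq
  have hN : ∀ a : ℝ, ∀ᶠ T : ℝ in l,
      (Nstar T a : ℝ) / (T * Real.log T) = N804.CF T a / (2 * Real.pi) := by
    intro a
    obtain ⟨T₀, hT₀, h⟩ := N804.nstar_eq a
    filter_upwards [hl (eventually_ge_atTop T₀)] with T hT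
    have hT10 : 10 ≤ T := hT₀.trans hT
    have hL : 0 < Real.log T := Real.log_pos (by linarith)
    have e : (Nstar T a : ℝ) = N804.CF T a * N804.XX T := h T hT
    rw [e]
    unfold N804.XX
    have : T ≠ 0 := by linarith
    field_simp
  have hB : ∀ᶠ T : ℝ in l, (Nbad T : ℝ) / (T * Real.log T) = N804.BF T / (2 * Real.pi) := by
    filter_upwards [hl (eventually_gt_atTop 1)] with T hT
    have hL : 0 < Real.log T := Real.log_pos hT
    have e : (Nbad T : ℝ) = N804.BF T * N804.XX T := N804.nbad_eq hT
    rw [e]
    unfold N804.XX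
    have : T ≠ 0 := by linarith
    field_simp
  constructor
  · intro h
    have h1 : ∀ a, 0 < a → Tendsto (fun T => N804.CF T a) l (𝓝 (N804.PP a)) := by
      intro a ha
      have h2 := (h a ha).const_mul (2 * Real.pi)
      rw [hP, mul_div_cancel₀ _ (by positivity : 2 * Real.pi ≠ 0)] at h2
      refine h2.congr' ?_
      filter_upwards [hN a] with T hT
      rw [hT]
      field_simp
    obtain ⟨-, hbad⟩ := N804.lower_half' hl (K := 0) (c := 1) (R := 1) one_pos
      (fun a ha ε hε => by
        have h3 := (tendsto_order.1 (h1 a (by linarith))).1 (N804.PP a - ε) (by linarith)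
        filter_upwards [h3] with T hT
        rw [zero_mul]
        linarith)
    refine ⟨?_, 0, 1, 1, one_pos, fun a ha ε hε => ?_⟩
    · have h3 := hbad.div_const (2 * Real.pi)
      rw [zero_div] at h3
      refine h3.congr' ?_
      filter_upwards [hB] with T hT
      exact hT.symm
    · have h3 := (tendsto_order.1 (h a (by linarith))).1 (P a - ε) (by linarith)
      have h4 := (tendsto_order.1 (h a (by linarith))).2 (P a + ε) (by linarith)
      filter_upwards [h3, h4] with T h5 h6
      rw [zero_mul]
      exact ⟨fun _ => by linarith, fun _ => by linarith⟩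
  · rintro ⟨h0, K, c, R, hc, h⟩
    have h0' : Tendsto N804.BF l (𝓝 0) := by
      have h3 := h0.const_mul (2 * Real.pi)
      rw [mul_zero] at h3
      refine h3.congr' ?_
      filter_upwards [hB] with T hT
      rw [hT]
      field_simp
    have hmain := (N804.pattern_half' hl hd hΛ (K := 2 * Real.pi * K) (R := R) hc h0'
      fun a ha ε hε => ?_).1
    · intro a ha
      rw [hP]
      refine ((hmain a ha).div_const (2 * Real.pi)).congr' ?_
      filter_upwards [hN a] with T hT
      exact hT.symm
    · have hcn : N804.cn Λ a = count Λ a := rfl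
      filter_upwards [h a ha (ε / (2 * Real.pi)) (by positivity), hN a] with T h1 h2
      rw [h2, hP] at h1
      rw [hcn]
      rcases Nat.even_or_odd (count Λ a) with he | ho
      · rw [he.neg_one_pow, one_mul]
        have h3 := h1.1 he
        rw [le_div_iff₀ (by positivity)] at h3
        have e : (N804.PP a / (2 * Real.pi) - K * Real.exp (-(c * a)) - ε / (2 * Real.pi)) *
            (2 * Real.pi) = N804.PP a - 2 * Real.pi * K * Real.exp (-(c * a)) - ε := by
          field_simp
        rw [e] at h3
        linarith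
      · rw [ho.neg_one_pow]
        have h3 := h1.2 ho
        rw [div_le_iff₀ (by positivity)] at h3
        have e : (N804.PP a / (2 * Real.pi) + K * Real.exp (-(c * a)) + ε / (2 * Real.pi)) *
            (2 * Real.pi) = N804.PP a + 2 * Real.pi * K * Real.exp (-(c * a)) + ε := by
          field_simp
        rw [e] at h3
        linarith

end Pool.Agent.Results.MP_f58427_nt.SignPatterns
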